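import Pool.Agent.Tdc637.Final

/-!
# Twisted degree of commutativity via finite quotients
-/

namespace Pool.Agent.Results.MP_13fe47_al.TdcInf

open Pool.Agent.Tdc637

/-- Full positive answer to Q1: for a finitely generated virtually abelian group `G`, a finite
generating set `X` and an endomorphism `φ`, the degree of twisted commutativity is the infimum of
the degrees of twisted commutativity of the finite quotients `G / N` with `φ(N) ≤ N`. -/
theorem result {G : Type*} [Group G]
    (hG : ∃ H : Subgroup G, H.FiniteIndex ∧ ∀ a ∈ H, ∀ b ∈ H, a * b = b * a)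
    (X : Finset G) (hX : Subgroup.closure (X : Set G) = ⊤) (φ : G →* G) :
    tdc X φ = infTdc φ :=
  tdc_eq_infTdc hG X hX φ

end Pool.Agent.Results.MP_13fe47_al.TdcInf
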